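import Pool.Agent.Y6.F.Stm

/-!
Integration by parts in time (job EF-IBP).
-/

open Set Filter Topology
open scoped ComplexConjugate

set_option autoImplicit false

namespace Pool.Agent.Y44.EF.IBP

open Pool.Agent.Y6.F
open Pool.Agent.Y6.M (qd Kz Ker Dat TSol)

/-- the rotating factor -/
noncomputable def Er (ω : ℝ) (s : ℝ) : ℂ := Complex.exp (((-(ω * s) : ℝ) : ℂ) * Complex.I)

lemma norm_Er (ω s : ℝ) : ‖Er ω s‖ = 1 := Complex.norm_exp_ofReal_mul_I _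

lemma Er_zero (ω : ℝ) : Er ω 0 = 1 := by simp [Er]

lemma hasDerivAt_Er (ω s : ℝ) : HasDerivAt (Er ω) (-(Complex.I * (ω : ℂ)) * Er ω s) s := by
  have h1 : HasDerivAt (fun s : ℝ => -(ω * s)) (-(ω * 1)) s :=
    ((hasDerivAt_id s).const_mul ω).neg
  have h2 : HasDerivAt (fun s : ℝ => (((-(ω * s) : ℝ) : ℂ) * Complex.I))
      (((-(ω * 1) : ℝ) : ℂ) * Complex.I) s := (h1.ofReal_comp).mul_const Complex.I
  have h3 := h2.cexp
  unfold Er
  convert h3 using 1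
  push_cast
  ring

/-- the derivative of a nonresonant term -/
lemma hasDeriv_phi {a b : ℝ → ℂ} {ωa ωb ω : ℝ} {qa qb c : ℂ} {J : Set ℝ} {s : ℝ}
    (ha : HasDerivWithinAt a (Complex.I * (ωa : ℂ) * a s + qa) J s)
    (hb : HasDerivWithinAt b (Complex.I * (ωb : ℂ) * b s + qb) J s)
    (hΔ : ωa + ωb - ω ≠ 0) :
    HasDerivWithinAt
      (fun s => c * a s * b s * Er ω s / (Complex.I * ((ωa + ωb - ω : ℝ) : ℂ)))
      (c * a s * b s * Er ω s +
        c * (qa * b s + a s * qb) * Er ω s / (Complex.I * ((ωa + ωb - ω : ℝ) : ℂ))) J s := by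
  have h1 := ((((ha.const_mul c).mul hb).mul (hasDerivAt_Er ω s).hasDerivWithinAt).div_const
    (Complex.I * ((ωa + ωb - ω : ℝ) : ℂ)))
  refine h1.congr_deriv ?_
  have hΔ' : ((ωa + ωb - ω : ℝ) : ℂ) ≠ 0 := by exact_mod_cast hΔ
  have hI : Complex.I ≠ 0 := Complex.I_ne_zero
  have hne : Complex.I * ((ωa + ωb - ω : ℝ) : ℂ) ≠ 0 := mul_ne_zero hI hΔ'
  rw [div_eq_iff hne]
  have h2 : (c * a s * b s * Er ω s + c * (qa * b s + a s * qb) * Er ω s /
      (Complex.I * ((ωa + ωb - ω : ℝ) : ℂ))) * (Complex.I * ((ωa + ωb - ω : ℝ) : ℂ)) =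
      c * a s * b s * Er ω s * (Complex.I * ((ωa + ωb - ω : ℝ) : ℂ)) +
        c * (qa * b s + a s * qb) * Er ω s := by
    rw [add_mul, div_mul_cancel₀ _ hne]
  rw [h2]
  simp only [Pi.mul_apply]
  push_cast
  ring

theorem t_IBP : S_IBP := by
  intro I lv bar σ c S v N z hK hD hT θ hθ e r he hr i hi D hDp hsum t ht
  have h0θ : (0 : ℝ) ∈ Icc 0 θ := ⟨le_rfl, hθ.1⟩
  have he0 : ∀ a, 0 ≤ e a := fun a => (norm_nonneg _).trans (he a 0 h0θ)
  have hr0 : ∀ a, 0 ≤ r a := fun a => (norm_nonneg _).trans (hr a 0 h0θ)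
  set tm : I × I → ℝ := fun p => if 0 < D p then ‖c i p.1 p.2‖ / D p *
    (2 * e p.1 * e p.2 + (r p.1 * e p.2 + e p.1 * r p.2)) else ‖c i p.1 p.2‖ * e p.1 * e p.2
    with htm
  have htm0 : ∀ p, 0 ≤ tm p := by
    intro p
    have h1 := he0 p.1
    have h2 := he0 p.2
    have h3 := hr0 p.1
    have h4 := hr0 p.2
    simp only [htm]
    split_ifs with h
    · positivity
    · positivity
  by_cases hN : lv i ≤ N
  swap
  · rw [hT.zero i (not_le.mp hN), norm_zero]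
    exact tsum_nonneg htm0
  classical
  -- the finite set of modes
  let F : Finset I := (hK.fin N).toFinset
  have hF : ∀ a, a ∈ F ↔ lv a ≤ N := fun a => by simp [F]
  let G : Finset (I × I) := F ×ˢ F
  let NR : Finset (I × I) := G.filter (fun p => 0 < D p ∧ c i p.1 p.2 ≠ 0)
  let RS : Finset (I × I) := G.filter (fun p => ¬ (0 < D p ∧ c i p.1 p.2 ≠ 0))
  have hG : ∀ p ∈ G, lv p.1 ≤ N ∧ lv p.2 ≤ N := fun p hp => by
    have := Finset.mem_product.mp hp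
    exact ⟨(hF _).mp this.1, (hF _).mp this.2⟩
  let ω : I → ℝ := fun a => S (lv a) * σ a
  have htθ : t ≤ 1 := ht.2.trans hθ.2
  have hsub : Icc 0 t ⊆ Icc (0 : ℝ) 60 := Icc_subset_Icc_right (by linarith)
  have hsubθ : Icc 0 t ⊆ Icc 0 θ := Icc_subset_Icc_right ht.2
  have hder : ∀ a, lv a ≤ N → ∀ s ∈ Icc 0 t, HasDerivWithinAt (z a)
      (Complex.I * (ω a : ℂ) * z a s + qd c (fun b => z b s) a) (Icc 0 t) s := by
    intro a ha s hs
    exact (hT.deriv a ha s (hsub hs)).mono hsub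
  -- the quadratic term as a finite sum
  have hqd : ∀ s, qd c (fun b => z b s) i = ∑ p ∈ G, c i p.1 p.2 * z p.1 s * z p.2 s := by
    intro s
    unfold qd
    refine tsum_eq_sum fun p hp => ?_
    have hp' : ¬ (lv p.1 ≤ N ∧ lv p.2 ≤ N) := fun h =>
      hp (Finset.mem_product.mpr ⟨(hF _).mpr h.1, (hF _).mpr h.2⟩)
    by_cases h1 : lv p.1 ≤ N
    · have h2 : N < lv p.2 := not_le.mp fun h => hp' ⟨h1, h⟩
      show c i p.1 p.2 * z p.1 s * z p.2 s = 0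
      rw [hT.zero _ h2, mul_zero]
    · show c i p.1 p.2 * z p.1 s * z p.2 s = 0
      rw [hT.zero _ (not_le.mp h1), mul_zero, zero_mul]
  have hΔ : ∀ p ∈ NR, 0 < D p ∧ c i p.1 p.2 ≠ 0 ∧ D p ≤ |ω p.1 + ω p.2 - ω i| ∧
      ω p.1 + ω p.2 - ω i ≠ 0 ∧ lv p.1 ≤ N ∧ lv p.2 ≤ N := by
    intro p hp
    obtain ⟨h1, h2, h3⟩ := Finset.mem_filter.mp hp
    have h4 := hDp p h3 h2
    refine ⟨h2, h3, h4, ?_, hG p h1⟩
    intro h5
    have h6 : D p ≤ |ω p.1 + ω p.2 - ω i| := h4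
    rw [h5, abs_zero] at h6
    linarith
  let Φ : I × I → ℝ → ℂ := fun p s =>
    c i p.1 p.2 * z p.1 s * z p.2 s * Er (ω i) s / (Complex.I * ((ω p.1 + ω p.2 - ω i : ℝ) : ℂ))
  let W : ℝ → ℂ := fun s => z i s * Er (ω i) s - ∑ p ∈ NR, Φ p s
  let W' : ℝ → ℂ := fun s => ∑ p ∈ RS, c i p.1 p.2 * z p.1 s * z p.2 s * Er (ω i) s -
    ∑ p ∈ NR, c i p.1 p.2 * (qd c (fun b => z b s) p.1 * z p.2 s +
      z p.1 s * qd c (fun b => z b s) p.2) * Er (ω i) s /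
        (Complex.I * ((ω p.1 + ω p.2 - ω i : ℝ) : ℂ))
  have hW : ∀ s ∈ Icc 0 t, HasDerivWithinAt W (W' s) (Icc 0 t) s := by
    intro s hs
    have h1 := (hder i hN s hs).mul (hasDerivAt_Er (ω i) s).hasDerivWithinAt
    have h2 : HasDerivWithinAt (fun s => ∑ p ∈ NR, Φ p s)
        (∑ p ∈ NR, (c i p.1 p.2 * z p.1 s * z p.2 s * Er (ω i) s +
          c i p.1 p.2 * (qd c (fun b => z b s) p.1 * z p.2 s +
            z p.1 s * qd c (fun b => z b s) p.2) * Er (ω i) s /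
              (Complex.I * ((ω p.1 + ω p.2 - ω i : ℝ) : ℂ)))) (Icc 0 t) s := by
      refine HasDerivWithinAt.fun_sum fun p hp => ?_
      obtain ⟨-, -, -, h4, h5, h6⟩ := hΔ p hp
      exact hasDeriv_phi (hder _ h5 s hs) (hder _ h6 s hs) h4
    refine (h1.sub h2).congr_deriv ?_
    have h3 : ∑ p ∈ G, c i p.1 p.2 * z p.1 s * z p.2 s * Er (ω i) s =
        ∑ p ∈ NR, c i p.1 p.2 * z p.1 s * z p.2 s * Er (ω i) s +
        ∑ p ∈ RS, c i p.1 p.2 * z p.1 s * z p.2 s * Er (ω i) s :=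
      (Finset.sum_filter_add_sum_filter_not G _ _).symm
    simp only [W']
    rw [Finset.sum_add_distrib, hqd s]
    rw [← Finset.sum_mul] at h3
    linear_combination h3
  -- bounds
  have hcE : ∀ (p : I × I) (s : ℝ) (u : ℂ) (x : ℝ), ‖u‖ ≤ x →
      ‖c i p.1 p.2 * u * Er (ω i) s‖ ≤ ‖c i p.1 p.2‖ * x := by
    intro p s u x hu
    rw [norm_mul, norm_mul, norm_Er, mul_one]
    exact mul_le_mul_of_nonneg_left hu (norm_nonneg _)
  have hdiv : ∀ p ∈ NR, ∀ (u : ℂ) (x : ℝ), ‖u‖ ≤ ‖c i p.1 p.2‖ * x → 0 ≤ x →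
      ‖u / (Complex.I * ((ω p.1 + ω p.2 - ω i : ℝ) : ℂ))‖ ≤ ‖c i p.1 p.2‖ / D p * x := by
    intro p hp u x hu hx
    obtain ⟨h1, -, h3, -⟩ := hΔ p hp
    have h4 : ‖Complex.I * ((ω p.1 + ω p.2 - ω i : ℝ) : ℂ)‖ = |ω p.1 + ω p.2 - ω i| := by
      rw [norm_mul, Complex.norm_I, one_mul, Complex.norm_real, Real.norm_eq_abs]
    rw [norm_div, h4]
    calc ‖u‖ / |ω p.1 + ω p.2 - ω i| ≤ (‖c i p.1 p.2‖ * x) / D p :=
          div_le_div₀ (by positivity) hu h1 h3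
      _ = _ := by ring
  have hzz : ∀ p : I × I, ∀ s ∈ Icc 0 t, ‖z p.1 s * z p.2 s‖ ≤ e p.1 * e p.2 := by
    intro p s hs
    rw [norm_mul]
    exact mul_le_mul (he _ s (hsubθ hs)) (he _ s (hsubθ hs)) (norm_nonneg _) (he0 _)
  have hΦ : ∀ p ∈ NR, ∀ s ∈ Icc 0 t, ‖Φ p s‖ ≤ ‖c i p.1 p.2‖ / D p * (e p.1 * e p.2) := by
    intro p hp s hs
    refine hdiv p hp _ _ ?_ (mul_nonneg (he0 _) (he0 _))
    rw [mul_assoc (c i p.1 p.2)]
    exact hcE p s _ _ (hzz p s hs)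
  let K : ℝ := ∑ p ∈ RS, ‖c i p.1 p.2‖ * (e p.1 * e p.2) +
    ∑ p ∈ NR, ‖c i p.1 p.2‖ / D p * (r p.1 * e p.2 + e p.1 * r p.2)
  have hK0 : 0 ≤ K := by
    refine add_nonneg (Finset.sum_nonneg fun p _ => ?_) (Finset.sum_nonneg fun p hp => ?_)
    · have := he0 p.1
      have := he0 p.2
      positivity
    · have h1 := (hΔ p hp).1
      have := he0 p.1
      have := he0 p.2
      have := hr0 p.1
      have := hr0 p.2
      positivity
  have hW' : ∀ s ∈ Icc 0 t, ‖W' s‖ ≤ K := by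
    intro s hs
    refine (norm_sub_le _ _).trans (add_le_add ?_ ?_)
    · refine (norm_sum_le _ _).trans (Finset.sum_le_sum fun p _ => ?_)
      rw [mul_assoc (c i p.1 p.2)]
      exact hcE p s _ _ (hzz p s hs)
    · refine (norm_sum_le _ _).trans (Finset.sum_le_sum fun p hp => ?_)
      refine hdiv p hp _ _ (hcE p s _ _ ?_) ?_
      · refine (norm_add_le _ _).trans (add_le_add ?_ ?_)
        · rw [norm_mul]
          exact mul_le_mul (hr _ s (hsubθ hs)) (he _ s (hsubθ hs)) (norm_nonneg _) (hr0 _)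
        · rw [norm_mul]
          exact mul_le_mul (he _ s (hsubθ hs)) (hr _ s (hsubθ hs)) (norm_nonneg _) (he0 _)
      · exact add_nonneg (mul_nonneg (hr0 _) (he0 _)) (mul_nonneg (he0 _) (hr0 _))
  have h0t : (0 : ℝ) ∈ Icc 0 t := ⟨le_rfl, ht.1⟩
  have htt : t ∈ Icc 0 t := ⟨ht.1, le_rfl⟩
  have hmv : ‖W t - W 0‖ ≤ K := by
    have h1 := (convex_Icc (0 : ℝ) t).norm_image_sub_le_of_norm_hasDerivWithin_le hW hW' h0t htt
    refine h1.trans ?_
    rw [sub_zero, Real.norm_eq_abs, abs_of_nonneg ht.1]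
    exact mul_le_of_le_one_right hK0 htθ
  have hz0 : z i 0 = 0 := by rw [hT.init i hN, hD.main i hi]
  have hW0 : W 0 = -∑ p ∈ NR, Φ p 0 := by
    simp only [W]
    rw [hz0, zero_mul, zero_sub]
  have hzt : z i t * Er (ω i) t = (W t - W 0) + (W 0 + ∑ p ∈ NR, Φ p t) := by
    simp only [W]
    ring
  have hS : ∀ s ∈ Icc 0 t, ‖∑ p ∈ NR, Φ p s‖ ≤ ∑ p ∈ NR, ‖c i p.1 p.2‖ / D p * (e p.1 * e p.2) :=
    fun s hs => (norm_sum_le _ _).trans (Finset.sum_le_sum fun p hp => hΦ p hp s hs)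
  have hmain : ‖z i t‖ ≤ K + (∑ p ∈ NR, ‖c i p.1 p.2‖ / D p * (e p.1 * e p.2) +
      ∑ p ∈ NR, ‖c i p.1 p.2‖ / D p * (e p.1 * e p.2)) := by
    have h1 : ‖z i t‖ = ‖z i t * Er (ω i) t‖ := by rw [norm_mul, norm_Er, mul_one]
    rw [h1, hzt]
    refine (norm_add_le _ _).trans (add_le_add hmv ?_)
    refine (norm_add_le _ _).trans (add_le_add ?_ (hS t htt))
    rw [hW0, norm_neg]
    exact hS 0 h0t
  refine hmain.trans ?_
  have hfin : K + (∑ p ∈ NR, ‖c i p.1 p.2‖ / D p * (e p.1 * e p.2) +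
      ∑ p ∈ NR, ‖c i p.1 p.2‖ / D p * (e p.1 * e p.2)) ≤ ∑ p ∈ G, tm p := by
    have h1 : ∑ p ∈ G, tm p = ∑ p ∈ NR, tm p + ∑ p ∈ RS, tm p :=
      (Finset.sum_filter_add_sum_filter_not G _ _).symm
    have h2 : ∑ p ∈ NR, tm p = ∑ p ∈ NR, ‖c i p.1 p.2‖ / D p * (r p.1 * e p.2 + e p.1 * r p.2) +
        (∑ p ∈ NR, ‖c i p.1 p.2‖ / D p * (e p.1 * e p.2) +
          ∑ p ∈ NR, ‖c i p.1 p.2‖ / D p * (e p.1 * e p.2)) := by
      rw [← Finset.sum_add_distrib, ← Finset.sum_add_distrib]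
      refine Finset.sum_congr rfl fun p hp => ?_
      simp only [htm]
      rw [if_pos (hΔ p hp).1]
      ring
    have h3 : ∑ p ∈ RS, ‖c i p.1 p.2‖ * (e p.1 * e p.2) ≤ ∑ p ∈ RS, tm p := by
      refine Finset.sum_le_sum fun p hp => ?_
      have h4 := (Finset.mem_filter.mp hp).2
      by_cases h5 : 0 < D p
      · have h6 : c i p.1 p.2 = 0 := by
          by_contra h7
          exact h4 ⟨h5, h7⟩
        refine le_trans (le_of_eq ?_) (htm0 p)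
        rw [h6, norm_zero, zero_mul]
      · simp only [htm]
        rw [if_neg h5]
        exact le_of_eq (by ring)
    rw [h1, h2]
    simp only [K]
    linarith
  exact hfin.trans (hsum.sum_le_tsum G fun p _ => htm0 p)

end Pool.Agent.Y44.EF.IBP
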