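import Pool.Agent.Y6.F.Stm

/-!
Uniform convergence along an ultrafilter (job EF-UC).
-/

open Set Filter Topology

set_option autoImplicit false

namespace Pool.Agent.Y44.EF.UC

open Pool.Agent.Y6.F

theorem t_UC : S_UC := by
  intro Z z U θ C hθ hZ hz ε hε
  -- the limit is Lipschitz
  have hlip : ∀ s ∈ Icc 0 θ, ∀ t ∈ Icc 0 θ, ‖z s - z t‖ ≤ C * |s - t| := by
    intro s hs t ht
    have h1 : Tendsto (fun N => ‖Z N s - Z N t‖) U (𝓝 ‖z s - z t‖) :=
      ((hz s hs).sub (hz t ht)).norm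
    exact le_of_tendsto h1 (hZ.mono fun N hN => hN s hs t ht)
  -- a finite net
  obtain ⟨m, hm⟩ : ∃ m : ℕ, 0 < m ∧ θ / m * |C| ≤ ε / 3 := by
    obtain ⟨m, hm⟩ := exists_nat_gt (θ * |C| / (ε / 3))
    refine ⟨m + 1, Nat.succ_pos _, ?_⟩
    have h1 : θ * |C| / (ε / 3) ≤ ((m + 1 : ℕ) : ℝ) := by
      push_cast
      linarith
    rw [div_le_iff₀ (by positivity)] at h1
    rw [div_mul_eq_mul_div, div_le_iff₀ (by positivity)]
    linarith
  obtain ⟨hm0, hm⟩ := hm
  have hm0' : (0 : ℝ) < m := by exact_mod_cast hm0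
  let p : ℕ → ℝ := fun k => θ / m * k
  have hp : ∀ k ≤ m, p k ∈ Icc 0 θ := by
    intro k hk
    have hk' : (k : ℝ) ≤ m := by exact_mod_cast hk
    refine ⟨by positivity, ?_⟩
    calc θ / m * k ≤ θ / m * m := mul_le_mul_of_nonneg_left hk' (by positivity)
      _ = θ := by field_simp
  have hnet : ∀ t ∈ Icc 0 θ, ∃ k ≤ m, |t - p k| ≤ θ / m := by
    intro t ht
    rcases eq_or_lt_of_le hθ with h0 | h0
    · refine ⟨0, Nat.zero_le _, ?_⟩
      have h1 : t = 0 := le_antisymm (ht.2.trans h0.symm.le) ht.1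
      simp [p, h1, ← h0]
    · refine ⟨⌊t / (θ / m)⌋₊, ?_, ?_⟩
      · have h1 : t / (θ / m) ≤ m := by
          rw [div_le_iff₀ (by positivity)]
          calc t ≤ θ := ht.2
            _ = m * (θ / m) := by field_simp
        have h2 : ⌊t / (θ / m)⌋₊ ≤ ⌊(m : ℝ)⌋₊ := Nat.floor_le_floor h1
        rwa [Nat.floor_natCast] at h2
      · have h1 := Nat.floor_le (div_nonneg ht.1 (by positivity : 0 ≤ θ / (m : ℝ)))
        have h2 := Nat.lt_floor_add_one (t / (θ / m))
        rw [le_div_iff₀ (by positivity)] at h1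
        rw [div_lt_iff₀ (by positivity)] at h2
        rw [abs_le]
        simp only [p]
        constructor
        · have : 0 < θ / m := by positivity
          linarith
        · linarith
  have hev : ∀ᶠ N in (U : Filter ℕ), ∀ k ∈ Finset.range (m + 1), ‖Z N (p k) - z (p k)‖ ≤ ε / 3 := by
    rw [Finset.eventually_all]
    intro k hk
    have h1 := hz (p k) (hp k (Nat.lt_succ_iff.mp (Finset.mem_range.mp hk)))
    have h2 : Tendsto (fun N => ‖Z N (p k) - z (p k)‖) U (𝓝 0) := by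
      have := (h1.sub_const (z (p k))).norm
      simpa using this
    exact (h2.eventually (gt_mem_nhds (by positivity : (0 : ℝ) < ε / 3))).mono fun N hN => hN.le
  filter_upwards [hZ, hev] with N hN1 hN2 t ht
  obtain ⟨k, hk, hk2⟩ := hnet t ht
  have hpk := hp k hk
  have hC : ∀ a b : ℝ, |a - b| ≤ θ / m → C * |a - b| ≤ ε / 3 := by
    intro a b hab
    calc C * |a - b| ≤ |C| * |a - b| := mul_le_mul_of_nonneg_right (le_abs_self C) (abs_nonneg _)
      _ ≤ |C| * (θ / m) := mul_le_mul_of_nonneg_left hab (abs_nonneg _)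
      _ ≤ ε / 3 := by linarith
  have h1 := (hN1 t ht (p k) hpk).trans (hC _ _ hk2)
  have h2 := hN2 k (Finset.mem_range.mpr (Nat.lt_succ_iff.mpr hk))
  have h3 := (hlip (p k) hpk t ht).trans (hC _ _ (by rw [abs_sub_comm]; exact hk2))
  calc ‖Z N t - z t‖ = ‖(Z N t - Z N (p k)) + (Z N (p k) - z (p k)) + (z (p k) - z t)‖ := by
        congr 1; ring
    _ ≤ ‖Z N t - Z N (p k)‖ + ‖Z N (p k) - z (p k)‖ + ‖z (p k) - z t‖ := norm_add₃_le
    _ ≤ ε := by linarith

end Pool.Agent.Y44.EF.UC
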